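import Pool.Agent.Q55.Rate.Low

/-!
# The rate of growth of the rank of the classes modulo numerical equivalence
-/

open CategoryTheory AlgebraicGeometry Finset Filter Topology

universe u v

namespace Pool.Agent.Q55.Rate

open Module
open Pool.Agent.H914 Pool.Agent.H914.VarClass Pool.Agent.H914.VarClass.Obj
  Pool.Agent.H914.WeilCohomology
open Pool.Agent.Y133.Half

variable {k : Type u} [Field k] {𝒱 : VarClass k} {ops : CycleOps 𝒱}
  {W : WeilCohomology.{u, v} ops} {X P Q Z : 𝒱.Obj}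

lemma al_eq (S : Sys W) (X : 𝒱.Obj) (n : ℕ) : S.al X n = S.a (pw X (2 * n + 1)) := by
  have h : 2 * n + 1 = n + n + 1 := by ring
  rw [h]
  exact (S.a_iso (pwAdd X n n)).symm ▸ rfl

lemma a_pw_sup (S : Sys W) (X : 𝒱.Obj) (m n : ℕ) :
    S.a (pw X m) * S.a (pw X n) ≤ S.a (pw X (m + n + 1)) := by
  rw [← S.a_iso (pwAdd X m n)]
  exact a_mul_le S _ _

lemma a_pw_le (S : Sys W) (X : 𝒱.Obj) (n : ℕ) :
    S.a (pw X n) ≤ finrank W.K (W.H X) ^ (n + 1) := by
  rw [← finrank_pw]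
  have h := S.rk_F_le (Z := pw X n) 1
  rwa [Sys.rank_one] at h

/-- A class of degree one, or no classes at all. -/
lemma zero_or (S : Sys W) (X : 𝒱.Obj) :
    (∀ n, S.a (pw X n) = 0) ∨ ((∀ n, 0 < S.a (pw X n)) ∧ (1 : W.H X) ≠ 0) := by
  by_cases hZ : ∀ l ∈ S.C X, W.tr X l = 0
  · exact Or.inl (S.a_eq_zero_of hZ)
  right
  push Not at hZ
  obtain ⟨l', hl', hl'0⟩ := hZ
  obtain ⟨l, hl, hl1⟩ : ∃ l ∈ S.C X, W.tr X l = 1 :=
    ⟨(W.tr X l')⁻¹ • l', Submodule.smul_mem _ _ hl', by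
      rw [map_smul, smul_eq_mul, inv_mul_cancel₀ hl'0]⟩
  refine ⟨fun n => ?_, one_ne_zero_of (ne_zero_of_tr hl1)⟩
  obtain ⟨m, hm, hm1⟩ := S.exists_lam hl hl1 n
  exact S.a_pos hm hm1

theorem exists_sys_rate (S : Sys W) (X : 𝒱.Obj) :
    ∃ ρ : ℝ, 0 ≤ ρ ∧ Tendsto (rootSeq fun n => S.a (pw X n)) atTop (𝓝 ρ) ∧
      ∀ n, (S.a (pw X n) : ℝ) ≤ ρ ^ (n + 1) :=
  exists_rate (a_pw_sup S X) (Nat.cast_nonneg (finrank W.K (W.H X)))
    (fun n => by exact_mod_cast a_pw_le S X n) ((zero_or S X).imp id And.left)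

/-- A numerically trivial operator which is not nilpotent yields a numerically trivial idempotent.
-/
lemma exists_num_idem (S : Sys W) {x : Module.End W.K (W.H P)} (hx : x ∈ S.NOp P P)
    (hn : ¬ IsNilpotent x) : ∃ g ∈ S.NOp P P, g ∘ₗ g = g ∧ g ≠ 0 := by
  let V : Fin 1 → 𝒱.Obj := ![P]
  obtain ⟨q, hq1, hq2⟩ := exists_fit x
  have hu : Polynomial.aeval x q ∈ S.Op P P :=
    (S.cat V).aeval_mem (i := 0) (Sys.NOp.op hx) q
  exact ⟨Polynomial.aeval x q * x, Sys.NOp.comp_left hu hx, hq1, fun h => hn (hq2 h)⟩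

lemma idem_zero {g : Module.End W.K (W.H P)} (hgg : g ∘ₗ g = g) (hn : IsNilpotent g) : g = 0 := by
  obtain ⟨n, hn⟩ := hn
  have h : ∀ m : ℕ, g ^ (m + 1) = g := by
    intro m
    induction m with
    | zero => rw [zero_add, pow_one]
    | succ m ih =>
      rw [pow_succ, ih]
      exact hgg
  rw [← h n, pow_succ, hn, zero_mul]

/-- **The rank of a numerically trivial idempotent and the rate.** -/
theorem rate_idem (S : Sys W) (X : 𝒱.Obj) {ρ : ℝ} (hρ : 0 ≤ ρ)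
    (ht : Tendsto (rootSeq fun n => S.a (pw X n)) atTop (𝓝 ρ)) {m : ℕ}
    {g : Module.End W.K (W.H (pw X m))} (hg : g ∈ S.NOp (pw X m) (pw X m)) (hgg : g ∘ₗ g = g) :
    ρ ^ (m + 1) ≤ finrank W.K (W.H X) ^ (m + 1) - finrank W.K (LinearMap.range g) := by
  obtain ⟨_, hdim⟩ := Sys.finrank_compl hgg
  set s := finrank W.K (W.H (pw X m)) - finrank W.K (LinearMap.range g) with hs
  have hs' : (s : ℝ) = finrank W.K (W.H X) ^ (m + 1) - finrank W.K (LinearMap.range g) := by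
    have h0 : finrank W.K (LinearMap.range g) ≤ finrank W.K (W.H (pw X m)) := by omega
    rw [hs, Nat.cast_sub h0, finrank_pw]
    push_cast
    ring
  -- the sequence along multiples
  have h1 : ∀ t : ℕ, S.a (pw X (1 + 2 * (m + 1) * t)) ≤ s ^ (2 * t) * S.a (pw X 1) := by
    intro t
    induction t with
    | zero => simp
    | succ t ih =>
      have e1 := upper S hg hgg (pw X ((m + 1) * t))
      have e2 : S.a (((pw X m).prod (pw X m)).prod ((pw X ((m + 1) * t)).prod (pw X ((m + 1) * t)))) =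
          S.a (pw X (1 + 2 * (m + 1) * (t + 1))) := by
        rw [S.a_iso (prodCongr (pwAdd X m m) (Iso.refl _))]
        rw [S.a_pw X (n := (m + 1) * (t + 1)) (by ring), al_eq]
        congr 2
        ring
      have e3 : S.a ((pw X ((m + 1) * t)).prod (pw X ((m + 1) * t))) =
          S.a (pw X (1 + 2 * (m + 1) * t)) := by
        change S.al X _ = _
        rw [al_eq]
        congr 2
        ring
      rw [e2, e3] at e1
      calc _ ≤ s ^ 2 * S.a (pw X (1 + 2 * (m + 1) * t)) := e1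
        _ ≤ s ^ 2 * (s ^ (2 * t) * S.a (pw X 1)) := Nat.mul_le_mul_left _ ih
        _ = _ := by ring
  have h2 : ρ ^ (2 * (m + 1)) ≤ (s : ℝ) ^ 2 := by
    refine rate_pow_le (q := 1) (C := S.a (pw X 1)) hρ ht (by omega) (sq_nonneg _) fun t => ?_
    have := h1 t
    have h3 : (S.a (pw X (1 + 2 * (m + 1) * t)) : ℝ) ≤ (s : ℝ) ^ (2 * t) * S.a (pw X 1) := by
      exact_mod_cast this
    rw [← pow_mul]
    linarith
  rw [← hs']
  have h3 : (ρ ^ (m + 1)) ^ 2 ≤ (s : ℝ) ^ 2 := by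
    rw [← pow_mul]
    convert h2 using 2
    ring
  exact abs_le_of_sq_le_sq' h3 (Nat.cast_nonneg _) |>.2

/-- **The law of the rate.** -/
theorem rate_tfae (S : Sys W) (X : 𝒱.Obj) {ρ : ℝ} (hρ : 0 ≤ ρ)
    (ht : Tendsto (rootSeq fun n => S.a (pw X n)) atTop (𝓝 ρ))
    (hle : ∀ n, (S.a (pw X n) : ℝ) ≤ ρ ^ (n + 1)) :
    List.TFAE [ρ = finrank W.K (W.H X),
      ∀ m, ∀ u ∈ S.NOp (pw X m) (pw X m), IsNilpotent u,
      ∀ m, ∀ g ∈ S.NOp (pw X m) (pw X m), g ∘ₗ g = g → g = 0,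
      ∀ n, finrank W.K (W.H X) ^ (2 * (n + 1)) ≤
        S.a (pw X (2 * n + 1)) * (n + 2) ^ (finrank W.K (W.H X) ^ 2)] := by
  have hb : ρ ≤ finrank W.K (W.H X) :=
    rate_le (Nat.cast_nonneg _) ht fun n => by exact_mod_cast a_pw_le S X n
  tfae_have 2 → 4 := by
    intro h n
    rw [← al_eq]
    exact growth_nil S n (h n)
  tfae_have 4 → 1 := by
    intro h
    refine le_antisymm hb (le_rate hρ hle (m := finrank W.K (W.H X) ^ 2) fun n => ?_)
    exact_mod_cast h n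
  tfae_have 1 → 3 := by
    intro h m g hg hgg
    by_contra h0
    have h1 := rate_idem S X hρ ht hg hgg
    rw [h] at h1
    have h2 : (1 : ℝ) ≤ finrank W.K (LinearMap.range g) := by
      exact_mod_cast Sys.finrank_range_pos h0
    linarith
  tfae_have 3 → 2 := by
    intro h m u hu
    by_contra hn
    obtain ⟨g, hg, hgg, h0⟩ := exists_num_idem S hu hn
    exact h0 (h m g hg hgg)
  tfae_finish

end Pool.Agent.Q55.Rate
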