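import Pool.Agent.Y133.Half.DDefs

/-!
# Numerically trivial correspondences of the powers: definitions
-/

open CategoryTheory AlgebraicGeometry

universe u v

namespace Pool.Agent.Q55.Rate

section Lin

variable {K V : Type*} [Field K] [AddCommGroup V] [Module K V]

/-- All operators with the property `s` are nilpotent. -/
def AllNilpotent (s : Module.End K V → Prop) : Prop := ∀ u, s u → IsNilpotent u

/-- The only idempotent operator with the property `s` is zero. -/
def NoIdempotent (s : Module.End K V → Prop) : Prop := ∀ u, s u → u * u = u → u = 0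

/-- Every idempotent operator with the property `s` has an even rank `r`, and
`ρ ^ m ≤ b ^ m - r`. -/
def IdempotentBound (s : Module.End K V → Prop) (ρ b : ℝ) (m : ℕ) : Prop :=
  ∀ e, s e → e * e = e → Even (Module.finrank K (LinearMap.range e)) ∧
    ρ ^ m ≤ b ^ m - Module.finrank K (LinearMap.range e)

/-- The operator `u` acts as `(-1) ^ i` on the subspace `gr i`, for all `i`. -/
def IsSignOp (gr : ℕ → Submodule K V) (u : Module.End K V) : Prop :=
  ∀ i, ∀ x ∈ gr i, u x = (-1 : K) ^ i • x

end Lin

open Pool.Agent.H914 Pool.Agent.H914.VarClass Pool.Agent.H914.VarClass.Obj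
  Pool.Agent.H914.WeilCohomology Pool.Agent.Y133.Half

variable {k : Type u} [Field k] {𝒱 : VarClass k} {ops : CycleOps 𝒱}

/-- The sum of all Betti numbers of `X`. -/
noncomputable def totalBetti (W : WeilCohomology.{u, v} ops) (X : 𝒱.Obj) : ℕ :=
  Module.finrank W.K (W.H X)

/-- The operator `u` on `H(P)` is given by a numerically trivial linear combination of classes of
algebraic cycles on `P × P` (of any codimensions). -/
def IsNumTrivialOp (W : WeilCohomology.{u, v} ops) (P : 𝒱.Obj) (u : Module.End W.K (W.H P)) :
    Prop :=
  ∃ c ∈ numTrivial W (P.prod P), W.corr c = u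

/-- All numerically trivial correspondences from a power of `X` to itself are nilpotent as operators
on the cohomology. -/
def NumTrivialNilpotent (W : WeilCohomology.{u, v} ops) (X : 𝒱.Obj) : Prop :=
  ∀ m : ℕ, AllNilpotent (IsNumTrivialOp W (pw X m))

/-- The only idempotent numerically trivial correspondence from a power of `X` to itself is zero. -/
def NoNumTrivialIdempotent (W : WeilCohomology.{u, v} ops) (X : 𝒱.Obj) : Prop :=
  ∀ m : ℕ, NoIdempotent (IsNumTrivialOp W (pw X m))

/-- The operator `(-1) ^ i` on `H^i(X)`, `i ≥ 0`, is a combination of algebraic correspondences: the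
sign conjecture for `X`. -/
def SignAlgebraic (W : WeilCohomology.{u, v} ops) (X : 𝒱.Obj) : Prop :=
  ∃ c ∈ Submodule.span W.K (algSet W (X.prod X)), IsSignOp (W.gr X) (W.corr c)

end Pool.Agent.Q55.Rate
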