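import Pool.Agent.Q55.Rate.Law
import Pool.Agent.Q55.Rate.Defs
import Pool.Agent.Y133.Half.Index

/-!
# The rate of growth of the rank of the cycles modulo numerical equivalence
-/

open CategoryTheory AlgebraicGeometry Finset Filter Topology

universe u v

namespace Pool.Agent.Q55.Rate

open Module
open Pool.Agent.H914 Pool.Agent.H914.VarClass Pool.Agent.H914.VarClass.Obj
  Pool.Agent.H914.WeilCohomology
open Pool.Agent.Y133.Half

variable {k : Type u} [Field k] {𝒱 : VarClass k} {ops : CycleOps 𝒱}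
  {W : WeilCohomology.{u, v} ops} {X P Q Z : 𝒱.Obj}

lemma isNumTrivialOp_iff {u : Module.End W.K (W.H P)} :
    IsNumTrivialOp W P u ↔ u ∈ (algSys W).NOp P P := by
  rw [IsNumTrivialOp, numTrivial_eq]
  exact Sys.mem_NOp.symm

lemma exists_cyc_rate (W : WeilCohomology.{u, v} ops) (X : 𝒱.Obj) :
    ∃ ρ : ℝ, 0 ≤ ρ ∧
      Tendsto (fun n => (cycRank ops (pw X n) : ℝ) ^ ((1 : ℝ) / (n + 1))) atTop (𝓝 ρ) ∧
      ∀ n, (cycRank ops (pw X n) : ℝ) ≤ ρ ^ (n + 1) := by
  obtain ⟨ρ, h0, h1, h2⟩ := exists_sys_rate (algSys W) X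
  have e : (fun n => (algSys W).a (pw X n)) = fun n => cycRank ops (pw X n) :=
    funext fun n => numDim_eq_cycRank W _
  rw [e] at h1
  refine ⟨ρ, h0, h1, fun n => ?_⟩
  rw [← numDim_eq_cycRank W]
  exact h2 n

lemma par_eq (hs : SignAlgebraic W X) : par (W.isInternal X) ∈ (algSys W).Op X X := by
  obtain ⟨c, hc, h⟩ := hs
  rw [algSet_span] at hc
  have : W.corr c = par (W.isInternal X) := by
    apply gr_ext (W.isInternal X)
    intro i x hx
    rw [h i x hx, par, scal_apply _ _ hx]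
  rw [← this]
  exact Sys.Op.corr hc

theorem main {ρ : ℝ} (hρ : 0 ≤ ρ)
    (ht : Tendsto (fun n => (cycRank ops (pw X n) : ℝ) ^ ((1 : ℝ) / (n + 1))) atTop (𝓝 ρ))
    (hle : ∀ n, (cycRank ops (pw X n) : ℝ) ≤ ρ ^ (n + 1)) (W : WeilCohomology.{u, v} ops) :
    ρ ≤ totalBetti W X ∧
    List.TFAE [ρ = totalBetti W X, NumTrivialNilpotent W X, NoNumTrivialIdempotent W X,
      ∀ n, totalBetti W X ^ (2 * (n + 1)) ≤
        cycRank ops (pw X (2 * n + 1)) * (n + 2) ^ (totalBetti W X ^ 2)] ∧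
    (∀ m : ℕ, IdempotentBound (IsNumTrivialOp W (pw X m)) ρ (totalBetti W X) (m + 1)) ∧
    (SignAlgebraic W X ∨ (∀ n, HomEqNum W (pw X n)) → ρ = totalBetti W X) := by
  have e : (fun n => (algSys W).a (pw X n)) = fun n => cycRank ops (pw X n) :=
    funext fun n => numDim_eq_cycRank W _
  have ht' : Tendsto (rootSeq fun n => (algSys W).a (pw X n)) atTop (𝓝 ρ) := by
    rw [e]; exact ht
  have hle' : ∀ n, ((algSys W).a (pw X n) : ℝ) ≤ ρ ^ (n + 1) := fun n => by
    rw [numDim_eq_cycRank W]; exact hle n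
  have hT := rate_tfae (algSys W) X hρ ht' hle'
  have h2 : NumTrivialNilpotent W X ↔
      ∀ m, ∀ u ∈ (algSys W).NOp (pw X m) (pw X m), IsNilpotent u :=
    forall_congr' fun m => forall_congr' fun u => by rw [isNumTrivialOp_iff]
  have h3 : NoNumTrivialIdempotent W X ↔
      ∀ m, ∀ u ∈ (algSys W).NOp (pw X m) (pw X m), u ∘ₗ u = u → u = 0 :=
    forall_congr' fun m => forall_congr' fun u => by rw [isNumTrivialOp_iff]; rfl
  have h4 : (∀ n, totalBetti W X ^ (2 * (n + 1)) ≤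
      cycRank ops (pw X (2 * n + 1)) * (n + 2) ^ (totalBetti W X ^ 2)) ↔
      ∀ n, finrank W.K (W.H X) ^ (2 * (n + 1)) ≤
        (algSys W).a (pw X (2 * n + 1)) * (n + 2) ^ (finrank W.K (W.H X) ^ 2) :=
    forall_congr' fun n => by rw [numDim_eq_cycRank W]; rfl
  refine ⟨rate_le (Nat.cast_nonneg _) ht' fun n => by
    exact_mod_cast a_pw_le (algSys W) X n, ?_, ?_, ?_⟩
  · rw [h2, h3, h4]
    exact hT
  · intro m g hg hgg
    rw [isNumTrivialOp_iff] at hg
    exact ⟨even_rank (algSys W) hg hgg, rate_idem (algSys W) X hρ ht' hg hgg⟩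
  · rintro (hs | hD)
    · refine (hT.out 0 3).2 fun n => ?_
      rw [← al_eq]
      exact Pool.Agent.Q55.Hs.growth_num (algSys W) (par_eq hs) n
    · refine (hT.out 0 2).2 fun m g hg hgg => ?_
      obtain ⟨c, hc, rfl⟩ := Sys.mem_NOp.1 hg
      have h5 := (homEqNum_iff (W := W) ((pw X m).prod (pw X m))).1
        ((homEqNum_iso (pwAdd X m m)).2 (hD (m + m + 1)))
      rw [h5, Submodule.mem_bot] at hc
      rw [hc, corr_zero]

end Pool.Agent.Q55.Rate
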