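import Pool.Agent.Q55.Rate.Seq
import Pool.Agent.Q55.Hs.Low

/-!
# Lower bounds for the rank of the classes modulo numerical equivalence
-/

open CategoryTheory AlgebraicGeometry Finset

universe u v

namespace Pool.Agent.Q55.Rate

open Module
open Pool.Agent.H914 Pool.Agent.H914.VarClass Pool.Agent.H914.VarClass.Obj
  Pool.Agent.H914.WeilCohomology
open Pool.Agent.Y133.Half

variable {k : Type u} [Field k] {𝒱 : VarClass k} {ops : CycleOps 𝒱}
  {W : WeilCohomology.{u, v} ops} {X P Q Z : 𝒱.Obj}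

/-- The rank modulo numerical equivalence is supermultiplicative. -/
theorem a_mul_le (S : Sys W) (P Q : 𝒱.Obj) : S.a P * S.a Q ≤ S.a (P.prod Q) := by
  classical
  obtain ⟨x, y, hxy⟩ := Pool.Agent.Y163.exists_dual_family (S.F P 1) 1
  obtain ⟨x', y', hxy'⟩ := Pool.Agent.Y163.exists_dual_family (S.F Q 1) 1
  have h := Pool.Agent.Y163.le_rank_of_dual
    (ι := Fin (finrank W.K (LinearMap.range (S.F P 1))) ×
      Fin (finrank W.K (LinearMap.range (S.F Q 1))))
    (S.F (P.prod Q) 1)
    (fun a => ⟨xp W (x a.1 : W.H P) (x' a.2 : W.H Q), Sys.xp_mem_C S (x a.1).2 (x' a.2).2⟩)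
    (fun a => ⟨xp W (y a.1 : W.H P) (y' a.2 : W.H Q), Sys.xp_mem_C S (y a.1).2 (y' a.2).2⟩)
    (fun _ => 1) (fun _ => one_ne_zero) (by
      rintro ⟨a, a'⟩ ⟨b, b'⟩
      have h1 := hxy a b
      have h2 := hxy' a' b'
      rw [Sys.F_apply] at h1 h2 ⊢
      change W.tr (P.prod Q) (xp W (x a : W.H P) (x' a' : W.H Q) *
        xp W (y b : W.H P) (y' b' : W.H Q)) = _
      change W.tr P ((x a : W.H P) * (y b : W.H P)) = _ at h1
      change W.tr Q ((x' a' : W.H Q) * (y' b' : W.H Q)) = _ at h2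
      rw [xp_mul (b := 0) (c := 0) _ _ _ _ (S.even (x' a').2) (S.even (y b).2), mul_zero,
        pow_zero, one_smul, tr_xp, h1, h2]
      by_cases ha : a = b
      · by_cases ha' : a' = b'
        · rw [if_pos ha, if_pos ha', if_pos (by rw [ha, ha']), mul_one]
        · rw [if_neg ha', if_neg (fun h => ha' (Prod.ext_iff.1 h).2), mul_zero]
      · rw [if_neg ha, if_neg (fun h => ha (Prod.ext_iff.1 h).1), zero_mul])
  rw [Fintype.card_prod, Fintype.card_fin, Fintype.card_fin] at h
  exact h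

lemma NOp.apply {S : Sys W} {u : W.H P →ₗ[W.K] W.H Q} (hu : u ∈ S.NOp P Q) {x : W.H P}
    (hx : x ∈ S.C P) : u x ∈ S.Num Q := by
  obtain ⟨c, hc, rfl⟩ := Sys.mem_NOp.1 hu
  rw [corr_apply]
  exact Sys.Num.push _ (Sys.Num.mul hc (S.map _ hx))

/-- The dimension of the operators of a system modulo numerical equivalence. -/
lemma finrank_op_num (S : Sys W) (P Q : 𝒱.Obj) :
    S.a (P.prod Q) + finrank W.K (S.NOp P Q) = finrank W.K (S.Op P Q) := by
  have hinj : Function.Injective (corrL W P Q) :=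
    (injective_iff_map_eq_zero _).2 fun x h => corr_inj h
  have h1 : finrank W.K (S.NOp P Q) = finrank W.K (S.Num (P.prod Q)) :=
    (Submodule.equivMapOfInjective _ hinj _).finrank_eq.symm
  have h2 : finrank W.K (S.Op P Q) = finrank W.K (S.C (P.prod Q)) :=
    (Submodule.equivMapOfInjective _ hinj _).finrank_eq.symm
  rw [h1, h2]
  exact S.a_add_num _

/-- An algebra of operators with semisimple structure meets a nil ideal in zero. -/
lemma inf_eq_bot (S : Sys W) (hnil : ∀ u ∈ S.NOp P P, IsNilpotent u)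
    (B₀ : Subalgebra W.K (Module.End W.K (W.H P))) [IsSemisimpleRing B₀]
    (hle : ∀ u ∈ B₀, u ∈ S.Op P P) :
    Subalgebra.toSubmodule B₀ ⊓ S.NOp P P = ⊥ := by
  rw [eq_bot_iff]
  rintro u ⟨hu1, hu2⟩
  have h2 : u ∈ Pool.Agent.Y163.rad B₀ := by
    refine ⟨hu1, fun y hy => ?_⟩
    have h3 : u * y ∈ S.NOp P P := Sys.NOp.comp_right hu2 (hle y hy)
    have h4 := LinearMap.isNilpotent_trace_of_isNilpotent (hnil _ h3)
    exact h4.eq_zero
  have h3 := (Pool.Agent.Y163.mem_rad_iff B₀ ⟨u, hu1⟩).1 h2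
  rw [IsSemisimpleRing.jacobson_eq_bot] at h3
  exact congrArg Subtype.val h3

/-- **Lower bound.** If the numerically trivial operators on `X^(n+1)` are nilpotent. -/
theorem growth_nil (S : Sys W) (n : ℕ) (hnil : ∀ u ∈ S.NOp (pw X n) (pw X n), IsNilpotent u) :
    finrank W.K (W.H X) ^ (2 * (n + 1)) ≤
      S.al X n * (n + 2) ^ (finrank W.K (W.H X) ^ 2) := by
  classical
  set P := pw X n with hP
  set ρ := rho W X n with hρ
  set B₀ := repAlg ρ with hB₀
  have hle : ∀ u ∈ B₀, u ∈ S.Op P P := fun u hu =>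
    S.span_rho_le X n (Pool.Agent.Y133.Half.repAlg_le ρ hu)
  set M₀ : Submodule W.K (Module.End W.K (W.H P)) := Subalgebra.toSubmodule B₀ with hM₀
  have hbot := inf_eq_bot S hnil B₀ hle
  have h1 : finrank W.K M₀ ≤ S.al X n := by
    have e1 := Submodule.finrank_sup_add_finrank_inf_eq M₀ (S.NOp P P)
    rw [hbot, finrank_bot, add_zero] at e1
    have e2 : M₀ ⊔ S.NOp P P ≤ S.Op P P := sup_le (fun u hu => hle u hu) fun u hu => Sys.NOp.op hu
    have e3 := Submodule.finrank_mono e2
    have e4 := finrank_op_num S P P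
    have e6 := e3.trans (le_of_eq e4.symm)
    rw [e1] at e6
    exact Nat.le_of_add_le_add_right e6
  obtain ⟨e, he⟩ := Pool.Agent.Y133.Half.exists_hbasis W X
  have h2 := Pool.Agent.Y133.Half.span_perm (Pool.Agent.Y133.Half.wb e n) ρ
    (Pool.Agent.Y133.Half.tau_wb e he n)
  have h3 : finrank W.K (Submodule.span W.K (Set.range ρ)) ≤ finrank W.K M₀ := by
    apply Submodule.finrank_mono
    rw [Submodule.span_le]
    rintro _ ⟨σ, rfl⟩
    exact Pool.Agent.Y133.Half.rep_mem ρ σ
  rw [finrank_pw, ← pow_mul, Fintype.card_fin] at h2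
  calc finrank W.K (W.H X) ^ (2 * (n + 1)) = finrank W.K (W.H X) ^ ((n + 1) * 2) := by
        rw [mul_comm]
    _ ≤ _ := h2
    _ ≤ _ := Nat.mul_le_mul_right _ (h3.trans h1)

/-- The rank of a numerically trivial idempotent is even. -/
lemma even_rank (S : Sys W) {g : Module.End W.K (W.H P)} (hg : g ∈ S.NOp P P) (hgg : g ∘ₗ g = g) :
    Even (finrank W.K (LinearMap.range g)) := by
  have h1 := Sys.NOp.trace hg Sys.Op.id
  have h1' : LinearMap.trace W.K (W.H P) (par (W.isInternal P) * g) = 0 := h1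
  set q := par (W.isInternal P) with hq
  have hcomm : q * g = g * q := (Sys.Op.ev (Sys.NOp.op hg)).par_comm
  have hqq : q * q = 1 := H914.par_mul_par _
  have hg' : g * g = g := hgg
  -- the idempotents `g (1 ± q) / 2`
  set ep := (2⁻¹ : W.K) • (g * (1 + q)) with hep
  have h2 : (2 : W.K) ≠ 0 := two_ne_zero
  have he : ep ∘ₗ ep = ep := by
    change ep * ep = ep
    rw [hep, smul_mul_smul_comm]
    have h3 : g * (1 + q) * (g * (1 + q)) = (2 : W.K) • (g * (1 + q)) := by
      have h4 : (1 + q) * g = g * (1 + q) := by rw [add_mul, mul_add, hcomm, one_mul, mul_one]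
      have h5 : (1 + q) * (1 + q) = (2 : W.K) • (1 + q) := by
        rw [mul_add, mul_one, add_mul, one_mul, hqq, two_smul]
        abel
      calc g * (1 + q) * (g * (1 + q)) = g * ((1 + q) * g) * (1 + q) := by
            simp only [mul_assoc]
        _ = (g * g) * ((1 + q) * (1 + q)) := by rw [h4]; simp only [mul_assoc]
        _ = _ := by rw [hg', h5, mul_smul_comm]
    rw [h3, smul_smul]
    congr 1
    field_simp
  have t1 := Pool.Agent.Y133.Half.trace_idem he
  have t2 := Pool.Agent.Y133.Half.trace_idem (K := W.K) (f := g) hgg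
  have t3 : LinearMap.trace W.K (W.H P) ep = 2⁻¹ * (finrank W.K (LinearMap.range g) : W.K) := by
    rw [hep, map_smul, smul_eq_mul, mul_add, mul_one, map_add, ← hcomm, h1', add_zero, t2]
  rw [t1] at t3
  have h3 : ((finrank W.K (LinearMap.range g) : ℕ) : W.K) =
      ((finrank W.K (LinearMap.range ep) + finrank W.K (LinearMap.range ep) : ℕ) : W.K) := by
    push_cast
    rw [t3]
    field_simp
    ring
  exact ⟨_, by exact_mod_cast h3⟩

lemma r_NOp (S : Sys W) {g : Module.End W.K (W.H P)} (hg : g ∈ S.NOp P P) : S.r P g Z = 0 := by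
  rw [Sys.r]
  have h : S.F (P.prod Z) (extOp W g 1) = 0 := by
    apply LinearMap.ext
    intro c
    apply LinearMap.ext
    intro d
    rw [Sys.F_apply]
    exact (NOp.apply (Sys.NOp.ext_left hg) c.2).2 d d.2
  rw [h, rk, LinearMap.range_zero, finrank_bot]

/-- **Upper bound.** A numerically trivial idempotent bounds the growth. -/
theorem upper (S : Sys W) {g : Module.End W.K (W.H P)} (hg : g ∈ S.NOp P P) (hgg : g ∘ₗ g = g)
    (Y : 𝒱.Obj) :
    S.a ((P.prod P).prod (Y.prod Y)) ≤
      (finrank W.K (W.H P) - finrank W.K (LinearMap.range g)) ^ 2 * S.a (Y.prod Y) := by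
  obtain ⟨hG', hdim⟩ := Sys.finrank_compl hgg
  set h : Module.End W.K (W.H P) := 1 - g with hh
  have hh' : h ∈ S.Op P P := Submodule.sub_mem _ Sys.Op.id (Sys.NOp.op hg)
  have hG2 : extOp W h h ∘ₗ extOp W h h = extOp W h h := by
    change extOp W h h * extOp W h h = _
    rw [extOp_mul]
    change extOp W (h ∘ₗ h) (h ∘ₗ h) = _
    rw [hG']
  have e1 : (1 : Module.End W.K (W.H (P.prod P))) - extOp W h h ∈ S.NOp (P.prod P) (P.prod P) := by
    have f1 : (1 : Module.End W.K (W.H (P.prod P))) - extOp W h h =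
        extOp W g 1 + extOp W h g := by
      have f2 : extOp W (1 : Module.End W.K (W.H P)) (1 : Module.End W.K (W.H P)) =
          extOp W g 1 + (extOp W h g + extOp W h h) := by
        have a1 : g + h = 1 := by rw [hh]; abel
        rw [← extOp_add_right, a1, ← extOp_add_left, a1]
      rw [← extOp_one, f2]
      abel
    have f3 : extOp W h g = extOp W h 1 ∘ₗ extOp W 1 g := by
      change _ = extOp W h 1 * extOp W 1 g
      rw [extOp_mul, mul_one, one_mul]
    rw [f1, f3]
    exact Submodule.add_mem _ (Sys.NOp.ext_left hg)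
      (Sys.NOp.comp_left (Sys.Op.ext hh' Sys.Op.id) (Sys.NOp.ext_right hg))
  have e2 := S.r_add_le (Z := Y.prod Y) (extOp W h h) (1 - extOp W h h)
  rw [add_sub_cancel, Sys.r_one, r_NOp S e1, add_zero] at e2
  refine e2.trans ((S.r_le_rank (Sys.Op.ext hh' hh') hG2 Y).trans (le_of_eq ?_))
  rw [finrank_extOp hG' hG', sq]
  have : finrank W.K (LinearMap.range h) =
      finrank W.K (W.H P) - finrank W.K (LinearMap.range g) := by omega
  rw [this]

end Pool.Agent.Q55.Rate
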