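import Pool.Agent.Y133.Half.Chain

/-!
# Growth rates of supermultiplicative sequences
-/

open Filter Topology

namespace Pool.Agent.Q55.Rate

/-- The sequence `N n ^ (1 / (n + 1))`. -/
noncomputable def rootSeq (N : ℕ → ℕ) (n : ℕ) : ℝ := (N n : ℝ) ^ ((1 : ℝ) / (n + 1))

lemma rootSeq_pow (N : ℕ → ℕ) (n : ℕ) : rootSeq N n ^ (n + 1) = N n := by
  rw [rootSeq, ← Real.rpow_natCast, ← Real.rpow_mul (Nat.cast_nonneg _)]
  have : (1 : ℝ) / (n + 1) * ((n + 1 : ℕ) : ℝ) = 1 := by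
    push_cast
    field_simp
  rw [this, Real.rpow_one]

lemma rootSeq_nonneg (N : ℕ → ℕ) (n : ℕ) : 0 ≤ rootSeq N n :=
  Real.rpow_nonneg (Nat.cast_nonneg _) _

lemma rootSeq_le {N : ℕ → ℕ} {n : ℕ} {B : ℝ} (hB : 0 ≤ B) (h : (N n : ℝ) ≤ B ^ (n + 1)) :
    rootSeq N n ≤ B := by
  rw [← rootSeq_pow] at h
  exact le_of_pow_le_pow_left₀ (by omega) hB h

/-- **Fekete.** -/
theorem exists_rate {N : ℕ → ℕ} (hsup : ∀ m n, N m * N n ≤ N (m + n + 1)) {B : ℝ} (hB : 0 ≤ B)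
    (hle : ∀ n, (N n : ℝ) ≤ B ^ (n + 1)) (h : (∀ n, N n = 0) ∨ ∀ n, 0 < N n) :
    ∃ ρ : ℝ, 0 ≤ ρ ∧ Tendsto (rootSeq N) atTop (𝓝 ρ) ∧ ∀ n, (N n : ℝ) ≤ ρ ^ (n + 1) := by
  rcases h with h | h
  · refine ⟨0, le_rfl, ?_, fun n => ?_⟩
    · have : rootSeq N = fun _ => (0 : ℝ) := by
        funext n
        have h1 := rootSeq_pow N n
        rw [h n, Nat.cast_zero] at h1
        exact (pow_eq_zero_iff (by omega)).1 h1
      rw [this]
      exact tendsto_const_nhds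
    · rw [h n, Nat.cast_zero]
      positivity
  · have hB0 : 0 < B := by
      rcases hB.lt_or_eq with h1 | h1
      · exact h1
      · exfalso
        have h2 := hle 0
        rw [← h1] at h2
        simp only [zero_add, pow_one] at h2
        have h3 : (0 : ℝ) < N 0 := by exact_mod_cast h 0
        linarith
    let w : ℕ → ℝ := fun n => Nat.rec (0 : ℝ) (fun m _ => -Real.log (N m)) n
    have w0 : w 0 = 0 := rfl
    have w1 : ∀ m, w (m + 1) = -Real.log (N m) := fun _ => rfl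
    have hpos : ∀ n, (0 : ℝ) < N n := fun n => by exact_mod_cast h n
    have hsub : Subadditive w := by
      intro m n
      rcases m with _ | m
      · rw [zero_add, w0, zero_add]
      rcases n with _ | n
      · rw [add_zero, w0, add_zero]
      have h1 : m + 1 + (n + 1) = (m + n + 1) + 1 := by ring
      rw [h1, w1, w1, w1]
      have h2 : ((N m : ℝ) * N n) ≤ N (m + n + 1) := by exact_mod_cast hsup m n
      have h3 := Real.log_le_log (mul_pos (hpos m) (hpos n)) h2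
      rw [Real.log_mul (hpos m).ne' (hpos n).ne'] at h3
      linarith
    have hbdd : BddBelow (Set.range fun n => w n / n) := by
      refine ⟨min 0 (-Real.log B), ?_⟩
      rintro _ ⟨n, rfl⟩
      rcases n with _ | n
      · simp
      · refine (min_le_right _ _).trans ?_
        have h1 : Real.log (N n) ≤ (n + 1) * Real.log B := by
          have h2 := Real.log_le_log (hpos n) (hle n)
          rw [Real.log_pow] at h2
          exact_mod_cast h2
        change -Real.log B ≤ w (n + 1) / ((n + 1 : ℕ) : ℝ)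
        rw [w1, le_div_iff₀ (by positivity)]
        push_cast
        linarith
    have hlim := hsub.tendsto_lim hbdd
    refine ⟨Real.exp (-hsub.lim), (Real.exp_pos _).le, ?_, fun n => ?_⟩
    · have h1 : Tendsto (fun n : ℕ => Real.exp (-(w (n + 1) / ((n + 1 : ℕ) : ℝ)))) atTop
          (𝓝 (Real.exp (-hsub.lim))) :=
        ((Real.continuous_exp.tendsto _).comp ((hlim.comp (tendsto_add_atTop_nat 1)).neg))
      refine h1.congr fun n => ?_
      rw [w1, rootSeq, Real.rpow_def_of_pos (hpos n)]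
      congr 1
      push_cast
      ring
    · have h1 := hsub.lim_le_div hbdd (n := n + 1) (by omega)
      change hsub.lim ≤ w (n + 1) / ((n + 1 : ℕ) : ℝ) at h1
      rw [w1, le_div_iff₀ (by positivity)] at h1
      rw [← Real.exp_nat_mul]
      rw [← Real.log_le_iff_le_exp (hpos n)]
      push_cast at h1 ⊢
      linarith

lemma rate_le {N : ℕ → ℕ} {ρ B : ℝ} (hB : 0 ≤ B) (ht : Tendsto (rootSeq N) atTop (𝓝 ρ))
    (hle : ∀ n, (N n : ℝ) ≤ B ^ (n + 1)) : ρ ≤ B :=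
  le_of_tendsto' ht fun n => rootSeq_le hB (hle n)

/-- Values below a geometric sequence along an arithmetic progression bound the rate. -/
lemma rate_pow_le {N : ℕ → ℕ} {ρ : ℝ} (hρ : 0 ≤ ρ) (ht : Tendsto (rootSeq N) atTop (𝓝 ρ))
    {j q : ℕ} (hj : 0 < j) {C r : ℝ} (hr : 0 ≤ r) (h : ∀ t : ℕ, (N (q + j * t) : ℝ) ≤ C * r ^ t) :
    ρ ^ j ≤ r := by
  by_contra hlt
  push Not at hlt
  have hρ0 : 0 < ρ := by
    rcases hρ.lt_or_eq with h1 | h1
    · exact h1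
    · rw [← h1, zero_pow (by omega)] at hlt
      linarith
  obtain ⟨c, hc0, hcρ, hc⟩ := Pool.Agent.Y133.Half.exists_close hρ0 j (sub_pos.2 hlt)
  rw [sub_sub_cancel] at hc
  have hcp : 0 < c := by
    rcases hc0.lt_or_eq with h1 | h1
    · exact h1
    · rw [← h1, zero_pow (by omega)] at hc
      linarith
  have he : ∀ᶠ n in atTop, c < rootSeq N n := ht.eventually (lt_mem_nhds hcρ)
  obtain ⟨n₀, hn₀⟩ := eventually_atTop.1 he
  obtain ⟨l₀, hl₀⟩ := Pool.Agent.Y133.Half.exp_lt hr hc 0 (C := C) (ε := c ^ (q + 1) / 2)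
    (by positivity)
  have h1 := hl₀ (max l₀ n₀) (le_max_left _ _)
  rw [pow_zero, mul_one] at h1
  have h2 := h (max l₀ n₀)
  have h3 := hn₀ (q + j * max l₀ n₀) (by
    have : max l₀ n₀ ≤ j * max l₀ n₀ := Nat.le_mul_of_pos_left _ hj
    have := le_max_right l₀ n₀
    omega)
  have h4 : c ^ (q + j * max l₀ n₀ + 1) < (N (q + j * max l₀ n₀) : ℝ) := by
    rw [← rootSeq_pow]
    exact pow_lt_pow_left₀ h3 hc0 (by omega)
  have h5 : c ^ (q + j * max l₀ n₀ + 1) = c ^ (q + 1) * (c ^ j) ^ (max l₀ n₀) := by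
    rw [← pow_mul, ← pow_add]
    congr 1
    ring
  have h6 : 0 < c ^ (q + 1) * (c ^ j) ^ (max l₀ n₀) := by positivity
  have h7 : c ^ (q + 1) / 2 * (c ^ j) ^ (max l₀ n₀) =
      (c ^ (q + 1) * (c ^ j) ^ (max l₀ n₀)) / 2 := by ring
  linarith

/-- A lower bound which is polynomially close to a geometric sequence bounds the rate. -/
lemma le_rate {N : ℕ → ℕ} {ρ B : ℝ} (hρ : 0 ≤ ρ)
    (hle : ∀ n, (N n : ℝ) ≤ ρ ^ (n + 1)) {m : ℕ}
    (h : ∀ n : ℕ, B ^ (2 * (n + 1)) ≤ N (2 * n + 1) * ((n : ℝ) + 2) ^ m) : B ≤ ρ := by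
  by_contra hlt
  push Not at hlt
  have h0 : ρ ^ 2 < B ^ 2 := pow_lt_pow_left₀ hlt hρ (by norm_num)
  have hBpos : 0 < B := lt_of_le_of_lt hρ hlt
  obtain ⟨l₀, hl₀⟩ := Pool.Agent.Y133.Half.exp_lt (sq_nonneg ρ) h0 m (C := ρ ^ 2) (ε := B ^ 2 / 2)
    (by positivity)
  have h1 := hl₀ l₀ le_rfl
  have h2 := h l₀
  have h3 : (N (2 * l₀ + 1) : ℝ) ≤ ρ ^ 2 * (ρ ^ 2) ^ l₀ := by
    have := hle (2 * l₀ + 1)
    refine this.trans (le_of_eq ?_)
    rw [← pow_mul, ← pow_add]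
    congr 1
    ring
  have h4 : B ^ (2 * (l₀ + 1)) = B ^ 2 * (B ^ 2) ^ l₀ := by
    rw [← pow_mul, ← pow_add]
    congr 1
    ring
  have h5 : (0 : ℝ) ≤ ((l₀ : ℝ) + 2) ^ m := by positivity
  have h6 : (N (2 * l₀ + 1) : ℝ) * ((l₀ : ℝ) + 2) ^ m ≤
      ρ ^ 2 * (ρ ^ 2) ^ l₀ * ((l₀ : ℝ) + 2) ^ m := mul_le_mul_of_nonneg_right h3 h5
  have h7 : 0 < B ^ 2 * (B ^ 2) ^ l₀ := by positivity
  have h8 : B ^ 2 / 2 * (B ^ 2) ^ l₀ = (B ^ 2 * (B ^ 2) ^ l₀) / 2 := by ring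
  rw [h4] at h2
  linarith

end Pool.Agent.Q55.Rate
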